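import Mathlib

/-!
Alternating generalised monomials and the two sided multiplication operators
(for `MP_8daa5c_al`).
-/

namespace Pool.Agent.Run7.h775.LV

open Finset Function Equiv

universe u

section

variable {A : Type u} [Ring A]

/-- `x ↦ (v ↦ c * x * g v)` -/
def mulAlt {n : ℕ} (c : A) (g : A [⋀^Fin n]→ₗ[ℤ] A) : A →ₗ[ℤ] (A [⋀^Fin n]→ₗ[ℤ] A) where
  toFun x := (LinearMap.mulLeft ℤ (c * x)).compAlternatingMap g
  map_add' x y := by ext v; simp [mul_add, add_mul, mul_assoc]
  map_smul' r x := by
    ext v
    change c * (r • x) * g v = r • (c * x * g v)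
    rw [mul_smul_comm, smul_mul_assoc]

/-- The alternating sum of the monomials `c 0 * x_(s 0) * c 1 * ... * x_(s (n-1)) * c n`. -/
def al : (n : ℕ) → (ℕ → A) → (A [⋀^Fin n]→ₗ[ℤ] A)
  | 0, c => AlternatingMap.constOfIsEmpty ℤ A (Fin 0) (c 0)
  | n + 1, c => AlternatingMap.alternatizeUncurryFin (mulAlt (c 0) (al n (fun i => c (i + 1))))

theorem al_zero (c : ℕ → A) (x : Fin 0 → A) : al 0 c x = c 0 := rfl

theorem al_succ (n : ℕ) (c : ℕ → A) (x : Fin (n + 1) → A) :
    al (n + 1) c x = ∑ i : Fin (n + 1), (-1 : ℤ) ^ (i : ℕ) •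
      (c 0 * x i * al n (fun i => c (i + 1)) (i.removeNth x)) := by
  rw [al, AlternatingMap.alternatizeUncurryFin_apply]
  rfl

/-- change of the last coefficient -/
theorem al_mul_right (n : ℕ) (c : ℕ → A) (q : A) (x : Fin n → A) :
    al n c x * q = al n (update c n (c n * q)) x := by
  induction n generalizing c with
  | zero => simp [al_zero]
  | succ n ih =>
    rw [al_succ, al_succ, Finset.sum_mul]
    refine Finset.sum_congr rfl fun i _ => ?_
    rw [smul_mul_assoc, mul_assoc, ih]
    have h0 : update c (n + 1) (c (n + 1) * q) 0 = c 0 := by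
      rw [update_of_ne (by omega)]
    have h1 : (fun i => update c (n + 1) (c (n + 1) * q) (i + 1)) =
        update (fun i => c (i + 1)) n (c (n + 1) * q) := by
      funext i
      by_cases h : i = n
      · subst h; simp
      · rw [update_of_ne h, update_of_ne (by omega)]
    rw [h0, h1]

theorem al_mul_left (n : ℕ) (c : ℕ → A) (q : A) (x : Fin n → A) :
    q * al n c x = al n (update c 0 (q * c 0)) x := by
  cases n with
  | zero => simp [al_zero]
  | succ n =>
    rw [al_succ, al_succ, Finset.mul_sum]
    refine Finset.sum_congr rfl fun i _ => ?_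
    rw [mul_smul_comm, update_self]
    have h1 : (fun i => update c 0 (q * c 0) (i + 1)) = (fun i => c (i + 1)) := by
      funext i
      rw [update_of_ne (by omega)]
    rw [h1, ← mul_assoc, ← mul_assoc]

/-- the bilinear map of the expansion along the last place -/
def biAlt {n : ℕ} (c d : A) (g : A [⋀^Fin n]→ₗ[ℤ] A) :
    A →ₗ[ℤ] A →ₗ[ℤ] (A [⋀^Fin n]→ₗ[ℤ] A) :=
  LinearMap.mk₂ ℤ
    (fun x y => (LinearMap.mulLeft ℤ (c * x)).compAlternatingMap
        ((LinearMap.mulRight ℤ (y * d)).compAlternatingMap g)
      + (LinearMap.mulLeft ℤ (c * y)).compAlternatingMap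
        ((LinearMap.mulRight ℤ (x * d)).compAlternatingMap g))
    (by
      intro x y z; ext v
      change c * (x + y) * (g v * (z * d)) + c * z * (g v * ((x + y) * d)) =
        (c * x * (g v * (z * d)) + c * z * (g v * (x * d))) +
        (c * y * (g v * (z * d)) + c * z * (g v * (y * d)))
      noncomm_ring)
    (by
      intro r x y; ext v
      change c * (r • x) * (g v * (y * d)) + c * y * (g v * ((r • x) * d)) =
        r • (c * x * (g v * (y * d)) + c * y * (g v * (x * d)))
      simp only [mul_smul_comm, smul_mul_assoc, smul_add])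
    (by
      intro x y z; ext v
      change c * x * (g v * ((y + z) * d)) + c * (y + z) * (g v * (x * d)) =
        (c * x * (g v * (y * d)) + c * y * (g v * (x * d))) +
        (c * x * (g v * (z * d)) + c * z * (g v * (x * d)))
      noncomm_ring)
    (by
      intro r x y; ext v
      change c * x * (g v * ((r • y) * d)) + c * (r • y) * (g v * (x * d)) =
        r • (c * x * (g v * (y * d)) + c * y * (g v * (x * d)))
      simp only [mul_smul_comm, smul_mul_assoc, smul_add])

theorem biAlt_apply {n : ℕ} (c d : A) (g : A [⋀^Fin n]→ₗ[ℤ] A) (x y : A) (v : Fin n → A) :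
    biAlt c d g x y v = c * x * (g v * (y * d)) + c * y * (g v * (x * d)) := rfl

/-- prolong a coefficient sequence -/
def pro (n : ℕ) (c : ℕ → A) (d : A) : ℕ → A := fun i => if i ≤ n then c i else d

/-- expansion along the last place -/
theorem al_right (n : ℕ) (c : ℕ → A) (d : A) (x : Fin (n + 1) → A) :
    ∑ i : Fin (n + 1), (-1 : ℤ) ^ (i : ℕ) • (al n c (i.removeNth x) * x i * d) =
      (-1 : ℤ) ^ n • al (n + 1) (pro n c d) x := by
  induction n generalizing c with
  | zero =>
    rw [al_succ]
    simp [al_zero, pro]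
  | succ n ih =>
    have key := congrArg (fun f => f x)
      (AlternatingMap.alternatizeUncurryFin_alternatizeUncurryFinLM_comp_of_symmetric
        (f := biAlt (c 0) d (al n (fun i => c (i + 1))))
        (by intro a b; ext v; rw [biAlt_apply, biAlt_apply, add_comm]))
    simp only [AlternatingMap.alternatizeUncurryFin_apply, LinearMap.comp_apply,
      AlternatingMap.alternatizeUncurryFinLM_apply, AlternatingMap.zero_apply, biAlt_apply,
      smul_add, Finset.sum_add_distrib] at key
    have h1 : (∑ i : Fin (n + 1 + 1), (-1 : ℤ) ^ (i : ℕ) • ∑ j : Fin (n + 1),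
        (-1 : ℤ) ^ (j : ℕ) • (c 0 * x i * (al n (fun i => c (i + 1))
          (j.removeNth (i.removeNth x)) * (i.removeNth x j * d)))) =
        (-1 : ℤ) ^ n • al (n + 1 + 1) (pro (n + 1) c d) x := by
      rw [al_succ, Finset.smul_sum]
      refine Finset.sum_congr rfl fun i _ => ?_
      rw [smul_comm]
      congr 1
      have h2 : (fun i => pro (n + 1) c d (i + 1)) = pro n (fun i => c (i + 1)) d := by
        funext i; simp [pro]
      have h3 : pro (n + 1) c d 0 = c 0 := by simp [pro]
      rw [h2, h3]
      have h4 := ih (fun i => c (i + 1)) (i.removeNth x)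
      rw [← mul_smul_comm, ← h4, Finset.mul_sum]
      refine Finset.sum_congr rfl fun j _ => ?_
      rw [mul_smul_comm]
      congr 1
      simp only [mul_assoc]
    have h5 : (∑ i : Fin (n + 1 + 1), (-1 : ℤ) ^ (i : ℕ) • ∑ j : Fin (n + 1),
        (-1 : ℤ) ^ (j : ℕ) • (c 0 * i.removeNth x j * (al n (fun i => c (i + 1))
          (j.removeNth (i.removeNth x)) * (x i * d)))) =
        ∑ i : Fin (n + 1 + 1), (-1 : ℤ) ^ (i : ℕ) • (al (n + 1) c (i.removeNth x) * x i * d) := by
      refine Finset.sum_congr rfl fun i _ => ?_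
      congr 1
      rw [al_succ, Finset.sum_mul, Finset.sum_mul]
      refine Finset.sum_congr rfl fun j _ => ?_
      rw [smul_mul_assoc, smul_mul_assoc]
      congr 1
      simp only [mul_assoc]
    rw [h1, h5] at key
    rw [pow_succ, mul_neg_one, neg_smul]
    exact eq_neg_of_add_eq_zero_right key

end

end Pool.Agent.Run7.h775.LV
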