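import Pool.Agent.Run7.h775.LV.Coset

/-!
Rings with a classical Capelli identity.
-/

namespace Pool.Agent.Run7.h775.LV

open Finset Function Equiv

universe u

theorem prod_last {A : Type u} [Ring A] (k : ℕ) (c : ℕ → A) (x : Fin (k + 1) → A) :
    (List.ofFn fun i : Fin (k + 1) => x i * c ((i : ℕ) + 1)).prod =
      (List.ofFn fun i : Fin (k + 1) => x i * (if (i : ℕ) + 1 < k + 1 then c ((i : ℕ) + 1) else 1)).prod
        * c (k + 1) := by
  rw [List.ofFn_succ', List.ofFn_succ', List.concat_eq_append, List.concat_eq_append,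
    List.prod_append, List.prod_append]
  have e : (fun i : Fin k => x i.castSucc * c (((i.castSucc : Fin (k + 1)) : ℕ) + 1)) =
      fun i : Fin k => x i.castSucc *
        (if ((i.castSucc : Fin (k + 1)) : ℕ) + 1 < k + 1 then
          c (((i.castSucc : Fin (k + 1)) : ℕ) + 1) else 1) := by
    funext i
    rw [if_pos (by simp)]
  rw [e]
  simp [mul_assoc]

section

variable {R : Type u} [NonUnitalRing R]

theorem inI_H' {k : ℕ} (h : ∀ (x : Fin (k + 1) → R) (y : ℕ → R),
    ∑ σ : Perm (Fin (k + 1)), (Perm.sign σ : ℤ) •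
      (List.ofFn fun i : Fin (k + 1) => ((x (σ i) : R) : Unitization ℤ R) *
        (if (i : ℕ) + 1 < k + 1 then ((y i : R) : Unitization ℤ R) else 1)).prod = 0) :
    H' (inI R) (k + 1) := by
  intro c hc x hx
  choose x' hx' using fun i => exists_inr (hx i)
  have hc' : ∀ i : ℕ, ∃ y : R, i + 1 < k + 1 → (y : Unitization ℤ R) = c (i + 1) := by
    intro i
    by_cases hi : i + 1 < k + 1
    · obtain ⟨y, hy⟩ := exists_inr (hc (i + 1) (Nat.succ_pos i) hi)
      exact ⟨y, fun _ => hy⟩
    · exact ⟨0, fun h => absurd h hi⟩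
  choose y hy using hc'
  have e : x = fun i => (x' i : Unitization ℤ R) := funext fun i => (hx' i).symm
  unfold lei
  have key : ∀ σ : Perm (Fin (k + 1)), (Perm.sign σ : ℤ) • mo (k + 1) c (fun i => x (σ i)) =
      c 0 * ((Perm.sign σ : ℤ) • (List.ofFn fun i : Fin (k + 1) =>
        ((x' (σ i) : R) : Unitization ℤ R) *
        (if (i : ℕ) + 1 < k + 1 then ((y i : R) : Unitization ℤ R) else 1)).prod) * c (k + 1) := by
    intro σ
    rw [mo_eq, prod_last, mul_smul_comm, smul_mul_assoc]
    have e2 : (fun i : Fin (k + 1) => x (σ i) *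
        (if (i : ℕ) + 1 < k + 1 then c ((i : ℕ) + 1) else 1)) =
        fun i : Fin (k + 1) => ((x' (σ i) : R) : Unitization ℤ R) *
        (if (i : ℕ) + 1 < k + 1 then ((y i : R) : Unitization ℤ R) else 1) := by
      funext i
      rw [e]
      by_cases hi : (i : ℕ) + 1 < k + 1
      · rw [if_pos hi, if_pos hi, hy _ hi]
      · rw [if_neg hi, if_neg hi]
    rw [e2]
    exact congrArg _ (mul_assoc _ _ _).symm
  rw [Finset.sum_congr rfl fun σ _ => key σ, ← Finset.sum_mul, ← Finset.mul_sum, h x' y,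
    mul_zero, zero_mul]

theorem zero_of_classical (m : ℕ) (h : ∀ (x : Fin m → R) (y : ℕ → R),
    ∑ σ : Perm (Fin m), (Perm.sign σ : ℤ) •
      (List.ofFn fun i : Fin m => ((x (σ i) : R) : Unitization ℤ R) *
        (if (i : ℕ) + 1 < m then ((y i : R) : Unitization ℤ R) else 1)).prod = 0)
    (hP : AddSubgroup.closure {z : R | ∃ a b : R, z = a * b - b * a} = ⊤) (x : R) : x = 0 := by
  cases m with
  | zero =>
    exfalso
    have := congrArg (Unitization.fstHom ℤ R) (h Fin.elim0 (fun _ => 0))
    simp at this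
  | succ k =>
    have h1 : H (inI R) (2 * k + 1) := by
      intro c z hz
      rw [al_eq_lei]
      exact lei_of_H' inI_idl (inI_H' h) c z hz
    have h2 := main (2 * k + 1) (Unitization ℤ R) (inI R) inI_idl (inI_perf hP) (H_succ h1) x
      (inr_mem x)
    exact Unitization.inr_injective h2

end

end Pool.Agent.Run7.h775.LV
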