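import Pool.Agent.Run7.h775.LV.Rep

/-!
The classical Capelli identity implies all alternating identities of twice the rank.
-/

namespace Pool.Agent.Run7.h775.LV

open Finset Function Equiv

universe u

section

variable {A : Type u} [Ring A]

/-- the monomial with variables indexed by the natural numbers -/
def mN : ℕ → (ℕ → A) → (ℕ → A) → A
  | 0, c, _ => c 0
  | n + 1, c, z => c 0 * z 0 * mN n (fun i => c (i + 1)) (fun i => z (i + 1))

theorem mo_eq_mN (n : ℕ) (c z : ℕ → A) : mo n c (fun i : Fin n => z i) = mN n c z := by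
  induction n generalizing c z with
  | zero => rfl
  | succ n ih =>
    rw [mo, mN, ← ih]
    rfl

/-- the coefficients after grouping the variables at the odd places -/
def grp (k : ℕ) (c z : ℕ → A) : ℕ → A := fun i =>
  if i = 0 then c 0 else if i ≤ k then c (2 * i - 1) * z (2 * i - 1) * c (2 * i) else c (2 * k + 1)

theorem mN_left (n : ℕ) (c z : ℕ → A) (a : A) :
    a * mN n c z = mN n (fun i => if i = 0 then a * c 0 else c i) z := by
  cases n with
  | zero => simp [mN]
  | succ n =>
    rw [mN, mN]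
    simp only [if_true, Nat.add_eq_zero_iff, one_ne_zero, and_false, if_false]
    rw [mul_assoc, mul_assoc, mul_assoc]

theorem mN_grp (k : ℕ) (c z : ℕ → A) :
    mN (2 * k + 1) c z = mN (k + 1) (grp k c z) (fun i => z (2 * i)) := by
  induction k generalizing c z with
  | zero =>
    simp [mN, grp]
  | succ k ih =>
    have e : 2 * (k + 1) + 1 = (2 * k + 1) + 1 + 1 := by ring
    rw [e, mN, mN, ih, ← mul_assoc, mN_left]
    conv_rhs => rw [mN]
    have h0 : grp (k + 1) c z 0 = c 0 := by simp [grp]
    rw [h0, mul_assoc (c 0 * z 0), mN_left]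
    congr 1
    funext i
    by_cases hi : i = 0
    · subst hi
      simp [grp, mul_assoc]
    · rw [if_neg hi, if_neg hi]
      unfold grp
      rw [if_neg hi, if_neg (Nat.succ_ne_zero i)]
      by_cases hk : i ≤ k
      · rw [if_pos hk, if_pos (Nat.succ_le_succ hk)]
        have e1 : 2 * i - 1 + 1 + 1 = 2 * (i + 1) - 1 := by omega
        have e2 : 2 * i + 1 + 1 = 2 * (i + 1) := by ring
        beta_reduce
        rw [e1, e2]
      · rw [if_neg hk, if_neg (fun h => hk (Nat.succ_le_succ_iff.1 h))]
        have e2 : 2 * k + 1 + 1 + 1 = 2 * (k + 1) + 1 := by ring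
        beta_reduce
        rw [e2]

/-- alternating sums with inner coefficients in `I` vanish -/
def H' (I : AddSubgroup A) (m : ℕ) : Prop :=
  ∀ c : ℕ → A, (∀ i, 0 < i → i < m → c i ∈ I) → ∀ x : Fin m → A, (∀ i, x i ∈ I) → lei m c x = 0

/-- the even places -/
def ev (k : ℕ) : Fin (k + 1) ↪ Fin (2 * k + 1) where
  toFun i := ⟨2 * i, by omega⟩
  inj' a b h := by
    have := congrArg Fin.val h
    simp only at this
    exact Fin.ext (by omega)

theorem mo_grp (k : ℕ) (c : ℕ → A) (w : Fin (2 * k + 1) → A) (z : ℕ → A)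
    (hz : ∀ i : Fin (2 * k + 1), w i = z i) :
    mo (2 * k + 1) c w = mo (k + 1) (grp k c z) (fun i => w (ev k i)) := by
  have e1 : w = fun i : Fin (2 * k + 1) => z i := funext hz
  rw [e1, mo_eq_mN, mN_grp, ← mo_eq_mN]
  rfl

theorem lei_of_H' {I : AddSubgroup A} (hI : Idl I) {k : ℕ} (h : H' I (k + 1)) (c : ℕ → A)
    (x : Fin (2 * k + 1) → A) (hx : ∀ i, x i ∈ I) : lei (2 * k + 1) c x = 0 := by
  classical
  unfold lei
  set K : Subgroup (Perm (Fin (2 * k + 1))) := (Perm.viaEmbeddingHom (ev k)).range with hK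
  refine Finset.sum_cancels_of_partition_cancels (QuotientGroup.leftRel K) fun τ _ => ?_
  have e1 : ∑ a ∈ (Finset.univ.filter fun a => (QuotientGroup.leftRel K) a τ),
      (Perm.sign a : ℤ) • mo (2 * k + 1) c (fun i => x (a i)) =
      ∑ ρ : Perm (Fin (k + 1)), (Perm.sign (τ * ρ.viaEmbedding (ev k)) : ℤ) •
        mo (2 * k + 1) c (fun i => x ((τ * ρ.viaEmbedding (ev k)) i)) := by
    symm
    refine Finset.sum_bij (fun ρ _ => τ * ρ.viaEmbedding (ev k)) ?_ ?_ ?_ ?_
    · intro ρ _
      rw [Finset.mem_filter]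
      refine ⟨Finset.mem_univ _, ?_⟩
      rw [QuotientGroup.leftRel_apply]
      refine ⟨ρ⁻¹, ?_⟩
      rw [map_inv, Perm.viaEmbeddingHom_apply]
      group
    · intro a _ b _ hab
      exact Perm.viaEmbeddingHom_injective (ev k) (mul_left_cancel hab)
    · intro a ha
      rw [Finset.mem_filter, QuotientGroup.leftRel_apply] at ha
      obtain ⟨ρ, hρ⟩ := ha.2
      refine ⟨ρ⁻¹, Finset.mem_univ _, ?_⟩
      rw [← Perm.viaEmbeddingHom_apply, map_inv, hρ]
      group
    · intro ρ _
      rfl
  rw [e1]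
  -- the values outside the even places do not move
  have e2 : ∀ ρ : Perm (Fin (k + 1)), (Perm.sign (τ * ρ.viaEmbedding (ev k)) : ℤ) •
      mo (2 * k + 1) c (fun i => x ((τ * ρ.viaEmbedding (ev k)) i)) =
      (Perm.sign τ : ℤ) • ((Perm.sign ρ : ℤ) • mo (k + 1)
        (grp k c (fun i => if h : i < 2 * k + 1 then x (τ ⟨i, h⟩) else 0))
        (fun i => (fun j => x (τ (ev k j))) (ρ i))) := by
    intro ρ
    have hs : Perm.sign (ρ.viaEmbedding (ev k)) = Perm.sign ρ := by
      unfold Perm.viaEmbedding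
      simp
    rw [Perm.sign_mul, hs, Units.val_mul, mul_smul]
    congr 2
    rw [mo_grp k c _ (fun i => if h : i < 2 * k + 1 then
      x ((τ * ρ.viaEmbedding (ev k)) ⟨i, h⟩) else 0)
      (fun i => by rw [dif_pos i.2])]
    have e3 : grp k c (fun i => if h : i < 2 * k + 1 then
        x ((τ * ρ.viaEmbedding (ev k)) ⟨i, h⟩) else 0) =
        grp k c (fun i => if h : i < 2 * k + 1 then x (τ ⟨i, h⟩) else 0) := by
      funext i
      unfold grp
      by_cases hi : i = 0
      · rw [if_pos hi, if_pos hi]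
      · rw [if_neg hi, if_neg hi]
        by_cases hk : i ≤ k
        · rw [if_pos hk, if_pos hk]
          beta_reduce
          have h4 : 2 * i - 1 < 2 * k + 1 := by omega
          rw [dif_pos h4, dif_pos h4, Perm.mul_apply, Perm.viaEmbedding_apply_of_notMem]
          rintro ⟨j, hj⟩
          have := congrArg Fin.val hj
          change 2 * (j : ℕ) = 2 * i - 1 at this
          omega
        · rw [if_neg hk, if_neg hk]
    rw [e3]
    congr 1
    funext i
    rw [Perm.mul_apply, Perm.viaEmbedding_apply]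
  rw [Finset.sum_congr rfl fun ρ _ => e2 ρ, ← Finset.smul_sum]
  have h3 := h (grp k c (fun i => if h : i < 2 * k + 1 then x (τ ⟨i, h⟩) else 0)) ?_
    (fun j => x (τ (ev k j))) (fun j => hx _)
  · unfold lei at h3
    rw [h3, smul_zero]
  · intro i h0 h1
    unfold grp
    rw [if_neg (by omega), if_pos (by omega)]
    refine hI.right _ _ (hI.left _ _ ?_)
    beta_reduce
    rw [dif_pos (show 2 * i - 1 < 2 * k + 1 by omega)]
    exact hx _

end

end Pool.Agent.Run7.h775.LV
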