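import Pool.Agent.Run7.h775.LV.Basic

/-!
Exchange identities for alternating monomials of maximal rank.
-/

namespace Pool.Agent.Run7.h775.LV

open Finset Function Equiv

universe u

section

variable {A : Type u} [Ring A]

/-- two sided ideals, as additive subgroups -/
structure Idl (I : AddSubgroup A) : Prop where
  left : ∀ a : A, ∀ x ∈ I, a * x ∈ I
  right : ∀ a : A, ∀ x ∈ I, x * a ∈ I

/-- every element is a sum of commutators -/
def Perf (I : AddSubgroup A) : Prop :=
  ∀ x ∈ I, x ∈ AddSubgroup.closure {z : A | ∃ a ∈ I, ∃ b ∈ I, z = a * b - b * a}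

/-- all alternating monomials of rank `n` vanish on `I` -/
def H (I : AddSubgroup A) (n : ℕ) : Prop :=
  ∀ c : ℕ → A, ∀ x : Fin n → A, (∀ i, x i ∈ I) → al n c x = 0

/-- prepend a coefficient -/
def cns (a : A) (c : ℕ → A) : ℕ → A
  | 0 => a
  | i + 1 => c i

theorem al_cns (n : ℕ) (a : A) (c : ℕ → A) (x : Fin (n + 1) → A) :
    al (n + 1) (cns a c) x = ∑ i : Fin (n + 1), (-1 : ℤ) ^ (i : ℕ) •
      (a * x i * al n c (i.removeNth x)) := al_succ n (cns a c) x

theorem map_cons_removeNth {n : ℕ} (g : A [⋀^Fin (n + 1)]→ₗ[ℤ] A) (l : Fin (n + 1)) (y : A)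
    (v : Fin (n + 1) → A) :
    g (Fin.cons y (l.removeNth v)) = (-1 : ℤ) ^ (l : ℕ) • g (update v l y) := by
  have h := AlternatingMap.neg_one_pow_smul_map_insertNth g l y (l.removeNth v)
  rw [Fin.insertNth_removeNth] at h
  exact h.symm

omit [Ring A] in
theorem removeNth_succ_cons {n : ℕ} (l : Fin (n + 1)) (y : A) (v : Fin (n + 1) → A) :
    Fin.removeNth l.succ (Fin.cons y v : Fin (n + 2) → A) = Fin.cons y (l.removeNth v) := by
  funext i
  refine Fin.cases ?_ (fun j => ?_) i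
  · simp [Fin.removeNth]
  · simp [Fin.removeNth]

omit [Ring A] in
theorem removeNth_zero_cons {n : ℕ} (y : A) (v : Fin n → A) :
    Fin.removeNth 0 (Fin.cons y v : Fin (n + 1) → A) = v := by
  funext i
  simp [Fin.removeNth]

variable {I : AddSubgroup A}

theorem cons_mem {n : ℕ} {y : A} {v : Fin n → A} (hy : y ∈ I) (hv : ∀ i, v i ∈ I) :
    ∀ i, (Fin.cons y v : Fin (n + 1) → A) i ∈ I := by
  intro i
  refine Fin.cases ?_ (fun j => ?_) i
  · simpa using hy
  · simpa using hv j

/-- exchange with a factor on the left -/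
theorem exL {n : ℕ} (hH : H I (n + 2)) (c : ℕ → A) (q : A) {y : A} (hy : y ∈ I)
    {v : Fin (n + 1) → A} (hv : ∀ i, v i ∈ I) :
    y * q * al (n + 1) c v = ∑ l : Fin (n + 1), v l * q * al (n + 1) c (update v l y) := by
  have h := hH (cns 1 (update c 0 (q * c 0))) (Fin.cons y v) (cons_mem hy hv)
  rw [al_cns, Fin.sum_univ_succ] at h
  simp only [removeNth_zero_cons, removeNth_succ_cons, Fin.cons_zero, Fin.cons_succ, one_mul,
    map_cons_removeNth, ← al_mul_left, Fin.val_zero, pow_zero, one_smul, Fin.val_succ] at h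
  rw [mul_assoc, ← sub_eq_zero, sub_eq_add_neg, ← Finset.sum_neg_distrib, ← h]
  congr 1
  refine Finset.sum_congr rfl fun l _ => ?_
  rw [mul_smul_comm, smul_smul, ← pow_add]
  have : (-1 : ℤ) ^ ((l : ℕ) + 1 + (l : ℕ)) = -1 := by
    rw [show (l : ℕ) + 1 + (l : ℕ) = 2 * l + 1 by ring, pow_succ, pow_mul]; simp
  rw [this, neg_one_smul, mul_assoc]

/-- exchange with a factor on the right -/
theorem exR {n : ℕ} (hH : H I (n + 2)) (c : ℕ → A) (q : A) {y : A} (hy : y ∈ I)
    {v : Fin (n + 1) → A} (hv : ∀ i, v i ∈ I) :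
    al (n + 1) c v * q * y = ∑ l : Fin (n + 1), al (n + 1) c (update v l y) * q * v l := by
  have h := al_right (n + 1) (update c (n + 1) (c (n + 1) * q)) 1 (Fin.cons y v)
  rw [hH _ _ (cons_mem hy hv), smul_zero, Fin.sum_univ_succ] at h
  simp only [removeNth_zero_cons, removeNth_succ_cons, Fin.cons_zero, Fin.cons_succ, mul_one,
    map_cons_removeNth, ← al_mul_right, Fin.val_zero, pow_zero, one_smul, Fin.val_succ] at h
  rw [← sub_eq_zero, sub_eq_add_neg, ← Finset.sum_neg_distrib, ← h]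
  congr 1
  refine Finset.sum_congr rfl fun l _ => ?_
  rw [smul_mul_assoc, smul_smul, ← pow_add]
  have : (-1 : ℤ) ^ ((l : ℕ) + 1 + (l : ℕ)) = -1 := by
    rw [show (l : ℕ) + 1 + (l : ℕ) = 2 * l + 1 by ring, pow_succ, pow_mul]; simp
  rw [this, neg_one_smul]

end

end Pool.Agent.Run7.h775.LV
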