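import Pool.Agent.Run7.h775.LV.Ops

/-!
The exchange of a whole alternating monomial.
-/

namespace Pool.Agent.Run7.h775.LV

open Finset Function Equiv

universe u

section

variable {A : Type u} [Ring A]

/-- the monomial `c 0 * x 0 * c 1 * ... * x (n-1) * c n` -/
def mo : (n : ℕ) → (ℕ → A) → (Fin n → A) → A
  | 0, c, _ => c 0
  | n + 1, c, x => c 0 * x 0 * mo n (fun i => c (i + 1)) (fun i => x i.succ)

/-- the alternating sum over all permutations -/
def lei (n : ℕ) (c : ℕ → A) (x : Fin n → A) : A :=
  ∑ σ : Perm (Fin n), (Perm.sign σ : ℤ) • mo n c (fun i => x (σ i))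

theorem alt_removeNth_succ {k : ℕ} (g : A [⋀^Fin k]→ₗ[ℤ] A) (x : Fin (k + 1) → A) (j : Fin k) :
    g (j.succ.removeNth x) = (-1 : ℤ) ^ (j : ℕ) • g (update (fun i => x i.succ) j (x 0)) := by
  cases k with
  | zero => exact j.elim0
  | succ k =>
    have hx : x = Fin.cons (x 0) (fun i => x i.succ) := (Fin.cons_self_tail x).symm
    conv_lhs => rw [hx]
    rw [removeNth_succ_cons, map_cons_removeNth]

theorem sum_split {k m : ℕ} (ι : Fin k ↪ Fin m) (F : Fin m → A) :
    ∑ l, F l = (∑ l : {l // l ∉ Set.range ι}, F l) + ∑ j, F (ι j) := by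
  rw [← Fintype.sum_subtype_add_sum_subtype (fun l => l ∉ Set.range ι) F]
  congr 1
  symm
  refine Fintype.sum_bijective (fun j : Fin k => (⟨ι j, fun h => h ⟨j, rfl⟩⟩ :
    {l // ¬ (l ∉ Set.range ι)})) ⟨fun a b h => ι.injective (Subtype.ext_iff.1 h), ?_⟩ _ _
    (fun j => rfl)
  rintro ⟨l, hl⟩
  obtain ⟨j, hj⟩ := not_not.1 hl
  exact ⟨j, Subtype.ext hj⟩

variable {I : AddSubgroup A}

theorem extend_mem {k m : ℕ} (ι : Fin k ↪ Fin m) {x : Fin k → A} {v : Fin m → A}
    (hx : ∀ i, x i ∈ I) (hv : ∀ i, v i ∈ I) : ∀ i, extend ι x v i ∈ I := by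
  intro i
  by_cases h : ∃ a, ι a = i
  · obtain ⟨a, rfl⟩ := h
    rw [ι.injective.extend_apply]; exact hx a
  · rw [extend_apply' _ _ _ h]; exact hv i

theorem update_mem {m : ℕ} {x : Fin m → A} (hx : ∀ i, x i ∈ I) {y : A} (hy : y ∈ I) (j : Fin m) :
    ∀ i, update x j y i ∈ I := by
  intro i
  by_cases h : i = j
  · subst h; simpa using hy
  · rw [update_of_ne h]; exact hx i

theorem beta {n : ℕ} (hH : H I (n + 2)) (d : ℕ → A) {v : Fin (n + 1) → A} (hv : ∀ i, v i ∈ I)
    (k : ℕ) (c : ℕ → A) (q : A) (x : Fin k → A) (hx : ∀ i, x i ∈ I) :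
    al k c x * q * al (n + 1) d v =
      ∑ ι : Fin k ↪ Fin (n + 1), mo k c (fun i => v (ι i)) * q * al (n + 1) d (extend ι x v) := by
  induction k generalizing c with
  | zero =>
    have hs : Subsingleton (Fin 0 ↪ Fin (n + 1)) := ⟨fun a b => by ext i; exact i.elim0⟩
    rw [Fintype.sum_subsingleton _ (⟨Fin.elim0, fun a => a.elim0⟩ : Fin 0 ↪ Fin (n + 1))]
    rw [al_zero, mo]
    congr 2
    funext i
    rw [extend_apply']
    rintro ⟨a, _⟩
    exact a.elim0
  | succ k ih =>
    set c' : ℕ → A := fun i => c (i + 1) with hc'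
    set xt : Fin k → A := fun i => x i.succ with hxt
    have hxt' : ∀ i, xt i ∈ I := fun i => hx _
    have hu : ∀ j i, update xt j (x 0) i ∈ I := fun j => update_mem hxt' (hx 0) j
    -- right side
    have hR : (∑ ι : Fin (k + 1) ↪ Fin (n + 1), mo (k + 1) c (fun i => v (ι i)) * q *
        al (n + 1) d (extend ι x v)) =
        ∑ ι : Fin k ↪ Fin (n + 1), ∑ l : {l // l ∉ Set.range ι},
          c 0 * (extend ι xt v l.1 * (mo k c' (fun i => v (ι i)) * q) *
            al (n + 1) d (update (extend ι xt v) l.1 (x 0))) := by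
      rw [← (Equiv.embeddingFinSucc k (Fin (n + 1))).symm.sum_comp, Fintype.sum_sigma]
      refine Finset.sum_congr rfl fun ι _ => Finset.sum_congr rfl fun l _ => ?_
      have hl : ¬ ∃ a, ι a = l.1 := l.2
      have h1 : (fun i => v ((Equiv.embeddingFinSucc k (Fin (n + 1))).symm ⟨ι, l⟩ i)) =
          Fin.cons (v l.1) (fun i => v (ι i)) := by
        funext i
        rw [Equiv.coe_embeddingFinSucc_symm]
        refine Fin.cases ?_ (fun j => ?_) i
        · simp
        · simp
      have h2 : extend ((Equiv.embeddingFinSucc k (Fin (n + 1))).symm ⟨ι, l⟩) x v =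
          update (extend ι xt v) l.1 (x 0) := by
        funext i
        set e := (Equiv.embeddingFinSucc k (Fin (n + 1))).symm ⟨ι, l⟩ with he
        have he0 : e 0 = l.1 := by rw [he, Equiv.coe_embeddingFinSucc_symm]; simp
        have hes : ∀ j : Fin k, e j.succ = ι j := by
          intro j; rw [he, Equiv.coe_embeddingFinSucc_symm]; simp
        by_cases hi : i = l.1
        · subst hi
          rw [update_self, ← he0, e.injective.extend_apply]
        · rw [update_of_ne hi]
          by_cases hj : ∃ a, ι a = i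
          · obtain ⟨a, rfl⟩ := hj
            rw [ι.injective.extend_apply, ← hes, e.injective.extend_apply]
          · rw [extend_apply' _ _ _ hj, extend_apply']
            rintro ⟨a, ha⟩
            refine Fin.cases (fun ha => ?_) (fun b ha => ?_) a ha
            · exact hi (by rw [← ha, he0])
            · exact hj ⟨b, by rw [← ha, hes]⟩
      rw [h1, h2, mo, extend_apply' _ _ _ hl]
      simp only [Fin.cons_zero, Fin.cons_succ, mul_assoc]
      rfl
    have hL : c 0 * x 0 * (al k c' xt * q * al (n + 1) d v) =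
        (∑ ι : Fin k ↪ Fin (n + 1), ∑ l : {l // l ∉ Set.range ι},
          c 0 * (extend ι xt v l.1 * (mo k c' (fun i => v (ι i)) * q) *
            al (n + 1) d (update (extend ι xt v) l.1 (x 0)))) +
        ∑ j : Fin k, c 0 * x j.succ * (al k c' (update xt j (x 0)) * q * al (n + 1) d v) := by
      rw [ih c' xt hxt', Finset.mul_sum]
      have e1 : ∀ ι : Fin k ↪ Fin (n + 1), c 0 * x 0 * (mo k c' (fun i => v (ι i)) * q *
          al (n + 1) d (extend ι xt v)) =
          (∑ l : {l // l ∉ Set.range ι},
          c 0 * (extend ι xt v l.1 * (mo k c' (fun i => v (ι i)) * q) *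
            al (n + 1) d (update (extend ι xt v) l.1 (x 0)))) +
          ∑ j : Fin k, c 0 * x j.succ * (mo k c' (fun i => v (ι i)) * q *
            al (n + 1) d (extend ι (update xt j (x 0)) v)) := by
        intro ι
        have h := exL hH d (mo k c' (fun i => v (ι i)) * q) (hx 0) (extend_mem ι hxt' hv)
        rw [sum_split ι] at h
        have h2 := congrArg (fun t => c 0 * t) h
        simp only [mul_add, Finset.mul_sum] at h2
        rw [mul_assoc (c 0), ← mul_assoc (x 0), h2]
        congr 1
        refine Finset.sum_congr rfl fun j _ => ?_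
        rw [ι.injective.extend_apply]
        have h3 : update (extend ι xt v) (ι j) (x 0) = extend ι (update xt j (x 0)) v := by
          funext i
          by_cases hi : ∃ a, ι a = i
          · obtain ⟨a, rfl⟩ := hi
            rw [ι.injective.extend_apply]
            by_cases haj : a = j
            · subst haj; simp
            · rw [update_of_ne haj, update_of_ne (fun h => haj (ι.injective h)),
                ι.injective.extend_apply]
          · rw [extend_apply' _ _ _ hi, update_of_ne (fun h => hi ⟨j, h.symm⟩),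
              extend_apply' _ _ _ hi]
        rw [h3]
        simp only [mul_assoc]
        rfl
      rw [Finset.sum_congr rfl fun ι _ => e1 ι, Finset.sum_add_distrib]
      congr 1
      rw [Finset.sum_comm]
      refine Finset.sum_congr rfl fun j _ => ?_
      rw [ih c' _ (hu j), Finset.mul_sum]
    rw [hR, al_succ, Fin.sum_univ_succ]
    have e0 : Fin.removeNth 0 x = xt := by
      funext i; simp [Fin.removeNth, hxt]
    have e2 : ∀ j : Fin k, (-1 : ℤ) ^ ((j.succ : Fin (k + 1)) : ℕ) •
        (c 0 * x j.succ * al k (fun i => c (i + 1)) (j.succ.removeNth x)) =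
        - (c 0 * x j.succ * al k c' (update xt j (x 0))) := by
      intro j
      rw [alt_removeNth_succ, mul_smul_comm, smul_smul, ← pow_add, Fin.val_succ]
      have : (-1 : ℤ) ^ ((j : ℕ) + 1 + (j : ℕ)) = -1 := by
        rw [show (j : ℕ) + 1 + (j : ℕ) = 2 * j + 1 by ring, pow_succ, pow_mul]; simp
      rw [this, neg_one_smul]
    rw [Finset.sum_congr rfl fun j _ => e2 j, Finset.sum_neg_distrib, e0]
    simp only [Fin.val_zero, pow_zero, one_smul]
    rw [add_mul, add_mul, neg_mul, neg_mul, Finset.sum_mul, Finset.sum_mul]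
    have e3 : c 0 * x 0 * al k (fun i => c (i + 1)) xt * q * al (n + 1) d v =
        c 0 * x 0 * (al k c' xt * q * al (n + 1) d v) := by simp only [mul_assoc]; rfl
    rw [e3, hL, add_assoc, ← sub_eq_add_neg]
    have e4 : (∑ j : Fin k, c 0 * x j.succ * (al k c' (update xt j (x 0)) * q * al (n + 1) d v)) =
        ∑ j : Fin k, c 0 * x j.succ * al k c' (update xt j (x 0)) * q * al (n + 1) d v := by
      refine Finset.sum_congr rfl fun j _ => ?_
      simp only [mul_assoc]
    rw [e4, sub_self, add_zero]

/-- Exchange of all places at once. -/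
theorem swapAll {n : ℕ} (hH : H I (n + 2)) (c d : ℕ → A) (q : A) {v x : Fin (n + 1) → A}
    (hv : ∀ i, v i ∈ I) (hx : ∀ i, x i ∈ I) :
    al (n + 1) c x * q * al (n + 1) d v = lei (n + 1) c v * q * al (n + 1) d x := by
  rw [beta hH d hv (n + 1) c q x hx, lei, Finset.sum_mul, Finset.sum_mul]
  refine Fintype.sum_equiv (Equiv.embeddingEquivOfFinite (Fin (n + 1))) _ _ fun ι => ?_
  set σ : Perm (Fin (n + 1)) := Equiv.embeddingEquivOfFinite (Fin (n + 1)) ι with hσ
  have hι : ∀ i, ι i = σ i := fun i => rfl
  have h1 : extend ι x v = x ∘ (σ⁻¹ : Perm (Fin (n + 1))) := by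
    funext i
    have : i = ι (σ⁻¹ i) := by rw [hι]; simp
    conv_lhs => rw [this]
    rw [ι.injective.extend_apply]
    rfl
  rw [h1, AlternatingMap.map_perm, Perm.sign_inv]
  simp only [hι]
  rw [Units.smul_def, mul_smul_comm, smul_mul_assoc, smul_mul_assoc]

/-- The Leibniz formula. -/
theorem al_eq_lei (n : ℕ) (c : ℕ → A) (x : Fin n → A) : al n c x = lei n c x := by
  induction n generalizing c with
  | zero => simp [al_zero, lei, mo]
  | succ n ih =>
    rw [al_succ, lei, ← Equiv.Perm.decomposeFin.symm.sum_comp, Fintype.sum_prod_type]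
    refine Finset.sum_congr rfl fun p _ => ?_
    have key : ∀ τ : Perm (Fin n), (Perm.sign (Equiv.Perm.decomposeFin.symm (p, τ)) : ℤ) •
        mo (n + 1) c (fun i => x (Equiv.Perm.decomposeFin.symm (p, τ) i)) =
        (if p = 0 then (1 : ℤ) else -1) • (c 0 * x p * ((Perm.sign τ : ℤ) •
          mo n (fun i => c (i + 1)) (fun i => (fun j : Fin n => x (swap 0 p j.succ)) (τ i)))) := by
      intro τ
      rw [mo, Equiv.Perm.decomposeFin.symm_sign, Equiv.Perm.decomposeFin_symm_apply_zero]
      simp only [Equiv.Perm.decomposeFin_symm_apply_succ]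
      rw [mul_smul_comm, smul_smul]
      congr 1
      split_ifs <;> simp
    simp only [key]
    rw [← Finset.smul_sum, ← Finset.mul_sum]
    have h2 := ih (fun i => c (i + 1)) (fun j : Fin n => x (swap 0 p j.succ))
    rw [lei] at h2
    rw [← h2]
    refine Fin.cases ?_ (fun j => ?_) p
    · simp
      rfl
    · have h3 : (fun i : Fin n => x (swap 0 j.succ i.succ)) =
          update (fun i => x i.succ) j (x 0) := by
        funext i
        by_cases hij : i = j
        · subst hij; simp
        · rw [update_of_ne hij, swap_apply_of_ne_of_ne (Fin.succ_ne_zero i)]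
          exact fun h => hij (Fin.succ_injective _ h)
      rw [h3, alt_removeNth_succ, mul_smul_comm, smul_smul, ← pow_add, Fin.val_succ,
        if_neg (Fin.succ_ne_zero j)]
      have : (-1 : ℤ) ^ ((j : ℕ) + 1 + (j : ℕ)) = -1 := by
        rw [show (j : ℕ) + 1 + (j : ℕ) = 2 * j + 1 by ring, pow_succ, pow_mul]; simp
      rw [this]

theorem mo_mem (hI : Idl I) (n : ℕ) (c : ℕ → A) (x : Fin (n + 1) → A) (hx : ∀ i, x i ∈ I) :
    mo (n + 1) c x ∈ I := hI.right _ _ (hI.left _ _ (hx 0))

theorem mo_T (n : ℕ) (c : ℕ → A) (x : Fin n → A) (s : Fin n) :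
    (fun y => mo n c (update x s y)) ∈ T A := by
  induction n generalizing c with
  | zero => exact s.elim0
  | succ n ih =>
    refine Fin.cases ?_ (fun t => ?_) s
    · have : (fun y => mo (n + 1) c (update x 0 y)) =
          fun y => c 0 * y * mo n (fun i => c (i + 1)) (fun i => x i.succ) := by
        funext y
        rw [mo, update_self]
        congr 2
      rw [this]
      exact T_gen _ _
    · have : (fun y => mo (n + 1) c (update x t.succ y)) =
          fun y => (c 0 * x 0) * mo n (fun i => c (i + 1)) (update (fun i => x i.succ) t y) := by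
        funext y
        rw [mo, update_of_ne (Fin.succ_ne_zero t).symm]
        congr 2
        funext i
        by_cases h : i = t
        · subst h; simp
        · rw [update_of_ne h, update_of_ne (fun e => h (Fin.succ_injective _ e))]
      rw [this]
      exact T_left _ (ih _ _ _)

theorem mo_TI (hI : Idl I) (n : ℕ) (c : ℕ → A) (x : Fin (n + 2) → A) (s : Fin (n + 2))
    (hx : ∀ i, i ≠ s → x i ∈ I) : (fun y => mo (n + 2) c (update x s y)) ∈ TI I := by
  refine Fin.cases (motive := fun s => (∀ i, i ≠ s → x i ∈ I) →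
    (fun y => mo (n + 2) c (update x s y)) ∈ TI I) (fun hx => ?_) (fun t hx => ?_) s hx
  · have : (fun y => mo (n + 2) c (update x 0 y)) =
        fun y => c 0 * y * mo (n + 1) (fun i => c (i + 1)) (fun i => x i.succ) := by
      funext y
      rw [mo, update_self]
      congr 2
    rw [this]
    exact TI_gen (Or.inr (mo_mem hI _ _ _ fun i => hx _ (Fin.succ_ne_zero i)))
  · have : (fun y => mo (n + 2) c (update x t.succ y)) =
        fun y => (c 0 * x 0) * mo (n + 1) (fun i => c (i + 1))
          (update (fun i => x i.succ) t y) := by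
      funext y
      rw [mo, update_of_ne (Fin.succ_ne_zero t).symm]
      congr 2
      funext i
      by_cases h : i = t
      · subst h; simp
      · rw [update_of_ne h, update_of_ne (fun e => h (Fin.succ_injective _ e))]
    rw [this]
    exact TI_left hI (hI.left _ _ (hx 0 (Fin.succ_ne_zero t).symm)) (mo_T _ _ _ _)

theorem lei_TI (hI : Idl I) (n : ℕ) (c : ℕ → A) (x : Fin (n + 2) → A) (s : Fin (n + 2))
    (hx : ∀ i, x i ∈ I) : (fun y => lei (n + 2) c (update x s y)) ∈ TI I := by
  have : (fun y => lei (n + 2) c (update x s y)) =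
      ∑ σ : Perm (Fin (n + 2)), (Perm.sign σ : ℤ) •
        fun y => mo (n + 2) c (update (fun i => x (σ i)) (σ⁻¹ s) y) := by
    funext y
    rw [lei, Finset.sum_apply]
    refine Finset.sum_congr rfl fun σ _ => ?_
    rw [Pi.smul_apply]
    congr 2
    funext i
    by_cases h : i = σ⁻¹ s
    · subst h; simp
    · rw [update_of_ne h, update_of_ne (fun e => h (by rw [← e]; simp))]
  rw [this]
  refine (TI I).sum_mem fun σ _ => (TI I).zsmul_mem ?_ _
  exact mo_TI hI _ _ _ _ fun i _ => hx _

end

end Pool.Agent.Run7.h775.LV
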