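import Pool.Agent.Run7.h775.LV.Leib

/-!
An ideal `I = [I, I]` on which all alternating monomials of some rank vanish is zero.
-/

namespace Pool.Agent.Run7.h775.LV

open Finset Function Equiv

universe u

theorem al_map {A B : Type u} [Ring A] [Ring B] (f : A →+* B) (n : ℕ) (c : ℕ → A)
    (x : Fin n → A) : f (al n c x) = al n (fun i => f (c i)) (fun i => f (x i)) := by
  induction n generalizing c with
  | zero => rfl
  | succ n ih =>
    rw [al_succ, al_succ, map_sum]
    refine Finset.sum_congr rfl fun i _ => ?_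
    rw [map_zsmul, map_mul, map_mul, ih]
    rfl

section

variable {A : Type u} [Ring A] {I : AddSubgroup A}

theorem al_mem (hI : Idl I) (n : ℕ) (c : ℕ → A) (x : Fin (n + 1) → A) (hx : ∀ i, x i ∈ I) :
    al (n + 1) c x ∈ I := by
  rw [al_succ]
  exact I.sum_mem fun i _ => I.zsmul_mem (hI.right _ _ (hI.left _ _ (hx i))) _

/-- if all products vanish then a perfect ideal is zero -/
theorem zero_of_comm (hP : Perf I) (h : ∀ x ∈ I, ∀ y ∈ I, x * y - y * x = 0) :
    ∀ x ∈ I, x = 0 := by
  intro x hx
  have h1 : AddSubgroup.closure {z : A | ∃ a ∈ I, ∃ b ∈ I, z = a * b - b * a} ≤ ⊥ := by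
    rw [AddSubgroup.closure_le]
    rintro _ ⟨a, ha, b, hb, rfl⟩
    exact AddSubgroup.mem_bot.2 (h a ha b hb)
  exact AddSubgroup.mem_bot.1 (h1 (hP x hx))

/-- the ideal spanned by the values of the alternating monomials of rank `n` -/
def JS (I : AddSubgroup A) (n : ℕ) : AddSubgroup A :=
  AddSubgroup.closure {z | ∃ (c : ℕ → A) (x : Fin n → A), (∀ i, x i ∈ I) ∧ z = al n c x}

theorem JS_left (n : ℕ) (a : A) {z : A} (hz : z ∈ JS I n) : a * z ∈ JS I n := by
  induction hz using AddSubgroup.closure_induction with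
  | mem z h =>
    obtain ⟨c, x, hx, rfl⟩ := h
    rw [al_mul_left]
    exact AddSubgroup.subset_closure ⟨_, x, hx, rfl⟩
  | zero => rw [mul_zero]; exact (JS I n).zero_mem
  | add y z _ _ h1 h2 => rw [mul_add]; exact (JS I n).add_mem h1 h2
  | neg y _ h1 => rw [mul_neg]; exact (JS I n).neg_mem h1

theorem JS_right (n : ℕ) (a : A) {z : A} (hz : z ∈ JS I n) : z * a ∈ JS I n := by
  induction hz using AddSubgroup.closure_induction with
  | mem z h =>
    obtain ⟨c, x, hx, rfl⟩ := h
    rw [al_mul_right]
    exact AddSubgroup.subset_closure ⟨_, x, hx, rfl⟩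
  | zero => rw [zero_mul]; exact (JS I n).zero_mem
  | add y z _ _ h1 h2 => rw [add_mul]; exact (JS I n).add_mem h1 h2
  | neg y _ h1 => rw [neg_mul]; exact (JS I n).neg_mem h1

/-- the same as a two sided ideal -/
def J (I : AddSubgroup A) (n : ℕ) : TwoSidedIdeal A :=
  TwoSidedIdeal.mk' (JS I n : Set A) (JS I n).zero_mem (fun h1 h2 => (JS I n).add_mem h1 h2)
    (fun h => (JS I n).neg_mem h) (fun h => JS_left n _ h) (fun h => JS_right n _ h)

theorem mem_J (n : ℕ) (z : A) : z ∈ J I n ↔ z ∈ JS I n := by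
  rw [J, TwoSidedIdeal.mem_mk']
  rfl

theorem swap_T {n : ℕ} (hH : H I (n + 2)) (c d : ℕ → A) {ψ : A → A} (hψ : ψ ∈ T A)
    {v x : Fin (n + 1) → A} (hv : ∀ i, v i ∈ I) (hx : ∀ i, x i ∈ I) :
    ψ (al (n + 1) c x) * al (n + 1) d v = ψ (lei (n + 1) c v) * al (n + 1) d x := by
  induction hψ using AddSubgroup.closure_induction with
  | mem ψ h =>
    obtain ⟨p, q, rfl⟩ := h
    have := congrArg (fun t => p * t) (swapAll hH c d q hv hx)
    simp only [← mul_assoc] at this
    exact this
  | zero => simp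
  | add φ ψ _ _ h1 h2 => simp only [Pi.add_apply, add_mul, h1, h2]
  | neg φ _ h1 => simp only [Pi.neg_apply, neg_mul, h1]

theorem prod_zero_aux (hI : Idl I) (hP : Perf I) {n : ℕ} (hH : H I (n + 3)) (c d : ℕ → A)
    {z x : Fin (n + 2) → A} (hz : ∀ i, z i ∈ I) (hx : ∀ i, x i ∈ I) {w : A}
    (hw : w ∈ JS I (n + 2)) : al (n + 2) c z * al (n + 2) d (update x 0 w) = 0 := by
  induction hw using AddSubgroup.closure_induction with
  | mem w h =>
    obtain ⟨e, u, hu, rfl⟩ := h
    have h1 := exR_T hH c (al_T (n + 2) d x 0) (al_mem hI (n + 1) e u hu) hz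
    have h2 : ∀ l : Fin (n + 2), al (n + 2) c (update z l (al (n + 2) e u)) *
        al (n + 2) d (update x 0 (z l)) =
        al (n + 2) c (update z l (lei (n + 2) e (update x 0 (z l)))) * al (n + 2) d u := by
      intro l
      exact swap_T hH e d (al_T (n + 2) c z l) (update_mem hx (hz l) 0) hu
    have h3 := Dz_zero hI hP hH c d hz hu (lei_TI hI n e x 0 hx)
    unfold Dz at h3
    rw [h1]
    rw [Finset.sum_congr rfl fun l _ => h2 l]
    exact h3
  | zero => rw [AlternatingMap.map_update_zero, mul_zero]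
  | add y z _ _ h1 h2 => rw [AlternatingMap.map_update_add, mul_add, h1, h2, add_zero]
  | neg y _ h1 =>
    have h2 := AlternatingMap.map_update_add (al (n + 2) d) x 0 y (-y)
    rw [add_neg_cancel, AlternatingMap.map_update_zero] at h2
    have h3 := congrArg (fun t => al (n + 2) c z * t) h2
    simp only [mul_zero, mul_add, h1, zero_add] at h3
    exact h3.symm

theorem prod_zero (hI : Idl I) (hP : Perf I) {n : ℕ} (hH : H I (n + 3))
    (hJ : ∀ x ∈ I, x ∈ JS I (n + 2)) : ∀ x ∈ I, ∀ y ∈ I, x * y = 0 := by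
  intro x hx y hy
  have h1 : ∀ (c : ℕ → A) (z : Fin (n + 2) → A), (∀ i, z i ∈ I) → ∀ y ∈ JS I (n + 2),
      al (n + 2) c z * y = 0 := by
    intro c z hz y hy
    induction hy using AddSubgroup.closure_induction with
    | mem y h =>
      obtain ⟨d, v, hv, rfl⟩ := h
      have := prod_zero_aux hI hP hH c d hz hv (hJ _ (hv 0))
      rwa [update_eq_self] at this
    | zero => rw [mul_zero]
    | add y z _ _ h1 h2 => rw [mul_add, h1, h2, add_zero]
    | neg y _ h1 => rw [mul_neg, h1, neg_zero]
  have hx' := hJ x hx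
  have hy' := hJ y hy
  clear hx hy
  induction hx' using AddSubgroup.closure_induction with
  | mem x h =>
    obtain ⟨d, v, hv, rfl⟩ := h
    exact h1 d v hv y hy'
  | zero => rw [zero_mul]
  | add x z _ _ h1 h2 => rw [add_mul, h1, h2, add_zero]
  | neg x _ h1 => rw [neg_mul, h1, neg_zero]

end

theorem perf_map {A B : Type u} [Ring A] [Ring B] (f : A →+* B) {I : AddSubgroup A} {x : A}
    (hx : x ∈ AddSubgroup.closure {z : A | ∃ a ∈ I, ∃ b ∈ I, z = a * b - b * a}) :
    f x ∈ AddSubgroup.closure {z : B | ∃ a ∈ I.map f.toAddMonoidHom,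
      ∃ b ∈ I.map f.toAddMonoidHom, z = a * b - b * a} := by
  induction hx using AddSubgroup.closure_induction with
  | mem z hz =>
    obtain ⟨a, ha, b, hb, rfl⟩ := hz
    exact AddSubgroup.subset_closure ⟨f a, ⟨a, ha, rfl⟩, f b, ⟨b, hb, rfl⟩, by simp⟩
  | zero => rw [map_zero]; exact AddSubgroup.zero_mem _
  | add y z _ _ h1 h2 => rw [map_add]; exact AddSubgroup.add_mem _ h1 h2
  | neg y _ h1 => rw [map_neg]; exact AddSubgroup.neg_mem _ h1

theorem main (a : ℕ) : ∀ (A : Type u) [Ring A] (I : AddSubgroup A), Idl I → Perf I →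
    H I (a + 1) → ∀ x ∈ I, x = 0 := by
  induction a with
  | zero =>
    intro A _ I hI hP hH x hx
    have := hH (fun _ => 1) (fun _ => x) (fun _ => hx)
    rw [al_succ] at this
    simpa [al_zero] using this
  | succ a ih =>
    intro A _ I hI hP hH
    cases a with
    | zero =>
      refine zero_of_comm hP fun x hx y hy => ?_
      have := hH (fun _ => 1) (Fin.cons x (fun _ => y)) (cons_mem hx fun _ => hy)
      rw [al_succ] at this
      simp only [al_succ, al_zero, Fin.sum_univ_succ] at this
      simpa [Fin.removeNth, sub_eq_add_neg] using this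
    | succ n =>
      have hJ : ∀ x ∈ I, x ∈ JS I (n + 2) := by
        intro x hx
        set π : A →+* (J I (n + 2)).ringCon.Quotient := (J I (n + 2)).ringCon.mk' with hπ
        have hsurj : Surjective π := RingCon.mk'_surjective _
        have hker : ∀ z : A, π z = 0 ↔ z ∈ JS I (n + 2) := by
          intro z
          rw [← mem_J, TwoSidedIdeal.mem_iff, hπ]
          exact RingCon.eq _
        have h := ih (J I (n + 2)).ringCon.Quotient (I.map π.toAddMonoidHom) ?_ ?_ ?_ (π x)
          ⟨x, hx, rfl⟩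
        · exact (hker x).1 h
        · constructor
          · rintro a' _ ⟨x, hx, rfl⟩
            obtain ⟨a, rfl⟩ := hsurj a'
            exact ⟨a * x, hI.left a x hx, map_mul π a x⟩
          · rintro a' _ ⟨x, hx, rfl⟩
            obtain ⟨a, rfl⟩ := hsurj a'
            exact ⟨x * a, hI.right a x hx, map_mul π x a⟩
        · rintro _ ⟨x, hx, rfl⟩
          exact perf_map π (hP x hx)
        · intro c' x' hx'
          choose c hc using fun i => hsurj (c' i)
          choose x hx hxx using hx'
          have e1 : c' = fun i => π (c i) := funext fun i => (hc i).symm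
          have e2 : x' = fun i => π (x i) := funext fun i => (hxx i).symm
          rw [e1, e2, ← al_map, hker]
          exact AddSubgroup.subset_closure ⟨c, x, hx, rfl⟩
      have h0 := prod_zero hI hP hH hJ
      exact zero_of_comm hP fun x hx y hy => by rw [h0 x hx y hy, h0 y hy x hx, sub_zero]

end Pool.Agent.Run7.h775.LV
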