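import Pool.Agent.Run7.h775.LV.Exch

/-!
Two sided multiplication operators; the traces of all of them vanish.
-/

namespace Pool.Agent.Run7.h775.LV

open Finset Function Equiv

universe u

section

variable {A : Type u} [Ring A]

/-- the two sided multiplication operators `y ↦ ∑ p * y * q` -/
def T (A : Type u) [Ring A] : AddSubgroup (A → A) :=
  AddSubgroup.closure {φ | ∃ p q : A, φ = fun y => p * y * q}

/-- the two sided multiplication operators `y ↦ ∑ p * y * q` with `p` or `q` in `I` -/
def TI (I : AddSubgroup A) : AddSubgroup (A → A) :=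
  AddSubgroup.closure {φ | ∃ p q : A, (p ∈ I ∨ q ∈ I) ∧ φ = fun y => p * y * q}

theorem T_gen (p q : A) : (fun y => p * y * q) ∈ T A :=
  AddSubgroup.subset_closure ⟨p, q, rfl⟩

theorem T_id : (id : A → A) ∈ T A := by
  have := T_gen (1 : A) 1
  simp only [one_mul, mul_one] at this
  exact this

theorem T_left (p : A) {φ : A → A} (hφ : φ ∈ T A) : (fun y => p * φ y) ∈ T A := by
  induction hφ using AddSubgroup.closure_induction with
  | mem φ h =>
    obtain ⟨a, b, rfl⟩ := h
    have := T_gen (p * a) b
    simpa only [mul_assoc] using this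
  | zero =>
    simp only [Pi.zero_apply, mul_zero]
    exact (T A).zero_mem
  | add φ ψ _ _ h1 h2 =>
    have := (T A).add_mem h1 h2
    refine (congrArg (· ∈ T A) ?_).mp this
    funext y; simp [mul_add]
  | neg φ _ h1 =>
    have := (T A).neg_mem h1
    refine (congrArg (· ∈ T A) ?_).mp this
    funext y; simp

theorem T_right (p : A) {φ : A → A} (hφ : φ ∈ T A) : (fun y => φ y * p) ∈ T A := by
  induction hφ using AddSubgroup.closure_induction with
  | mem φ h =>
    obtain ⟨a, b, rfl⟩ := h
    have := T_gen a (b * p)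
    simpa only [mul_assoc] using this
  | zero =>
    simp only [Pi.zero_apply, zero_mul]
    exact (T A).zero_mem
  | add φ ψ _ _ h1 h2 =>
    have := (T A).add_mem h1 h2
    refine (congrArg (· ∈ T A) ?_).mp this
    funext y; simp [add_mul]
  | neg φ _ h1 =>
    have := (T A).neg_mem h1
    refine (congrArg (· ∈ T A) ?_).mp this
    funext y; simp

theorem T_comp {φ ψ : A → A} (hφ : φ ∈ T A) (hψ : ψ ∈ T A) : (fun y => φ (ψ y)) ∈ T A := by
  induction hφ using AddSubgroup.closure_induction with
  | mem φ h =>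
    obtain ⟨a, b, rfl⟩ := h
    exact T_right b (T_left a hψ)
  | zero => exact (T A).zero_mem
  | add φ ψ _ _ h1 h2 => exact (T A).add_mem h1 h2
  | neg φ _ h1 => exact (T A).neg_mem h1

theorem T_add {φ : A → A} (hφ : φ ∈ T A) (x y : A) : φ (x + y) = φ x + φ y := by
  induction hφ using AddSubgroup.closure_induction with
  | mem φ h => obtain ⟨a, b, rfl⟩ := h; simp [mul_add, add_mul]
  | zero => simp
  | add φ ψ _ _ h1 h2 => simp only [Pi.add_apply, h1, h2]; abel
  | neg φ _ h1 => simp only [Pi.neg_apply, h1]; abel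

variable {I : AddSubgroup A}

theorem T_mem (hI : Idl I) {φ : A → A} (hφ : φ ∈ T A) {y : A} (hy : y ∈ I) : φ y ∈ I := by
  induction hφ using AddSubgroup.closure_induction with
  | mem φ h => obtain ⟨a, b, rfl⟩ := h; exact hI.right _ _ (hI.left _ _ hy)
  | zero => exact I.zero_mem
  | add φ ψ _ _ h1 h2 => exact I.add_mem h1 h2
  | neg φ _ h1 => exact I.neg_mem h1

theorem TI_gen {p q : A} (h : p ∈ I ∨ q ∈ I) : (fun y => p * y * q) ∈ TI I :=
  AddSubgroup.subset_closure ⟨p, q, h, rfl⟩

theorem TI_T {φ : A → A} (hφ : φ ∈ TI I) : φ ∈ T A := by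
  induction hφ using AddSubgroup.closure_induction with
  | mem φ h => obtain ⟨a, b, _, rfl⟩ := h; exact T_gen a b
  | zero => exact (T A).zero_mem
  | add φ ψ _ _ h1 h2 => exact (T A).add_mem h1 h2
  | neg φ _ h1 => exact (T A).neg_mem h1

/-- left multiplication by an element of `I` -/
theorem TI_left (hI : Idl I) {p : A} (hp : p ∈ I) {φ : A → A} (hφ : φ ∈ T A) :
    (fun y => p * φ y) ∈ TI I := by
  induction hφ using AddSubgroup.closure_induction with
  | mem φ h =>
    obtain ⟨a, b, rfl⟩ := h
    have := TI_gen (I := I) (p := p * a) (q := b) (Or.inl (hI.right _ _ hp))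
    simpa only [mul_assoc] using this
  | zero =>
    simp only [Pi.zero_apply, mul_zero]
    exact (TI I).zero_mem
  | add φ ψ _ _ h1 h2 =>
    have := (TI I).add_mem h1 h2
    refine (congrArg (· ∈ TI I) ?_).mp this
    funext y; simp [mul_add]
  | neg φ _ h1 =>
    have := (TI I).neg_mem h1
    refine (congrArg (· ∈ TI I) ?_).mp this
    funext y; simp

omit [Ring A] in
theorem removeNth_update_of {n : ℕ} (i : Fin (n + 1)) (j : Fin n) (z : Fin (n + 1) → A) (y : A) :
    i.removeNth (update z (i.succAbove j) y) = update (i.removeNth z) j y := by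
  funext k
  by_cases h : k = j
  · subst h; simp [Fin.removeNth]
  · rw [update_of_ne h]
    simp only [Fin.removeNth]
    rw [update_of_ne]
    exact fun e => h (Fin.succAbove_right_injective e)

/-- an alternating monomial is a two sided multiplication in each place -/
theorem al_T (n : ℕ) (c : ℕ → A) (z : Fin n → A) (j : Fin n) :
    (fun y => al n c (update z j y)) ∈ T A := by
  induction n generalizing c with
  | zero => exact j.elim0
  | succ n ih =>
    have e : (fun y => al (n + 1) c (update z j y)) =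
        ∑ i : Fin (n + 1), fun y => (-1 : ℤ) ^ (i : ℕ) •
          (c 0 * (update z j y) i * al n (fun i => c (i + 1)) (i.removeNth (update z j y))) := by
      funext y
      rw [al_succ, Finset.sum_apply]
    rw [e]
    refine (T A).sum_mem fun i _ => ?_
    have : (fun y => (-1 : ℤ) ^ (i : ℕ) •
          (c 0 * (update z j y) i * al n (fun i => c (i + 1)) (i.removeNth (update z j y)))) =
        (-1 : ℤ) ^ (i : ℕ) • fun y =>
          (c 0 * (update z j y) i * al n (fun i => c (i + 1)) (i.removeNth (update z j y))) := rfl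
    rw [this]
    refine (T A).zsmul_mem ?_ _
    by_cases hij : i = j
    · subst hij
      have : ∀ y, i.removeNth (update z i y) = i.removeNth z := by
        intro y; funext k
        simp [Fin.removeNth]
      simp only [update_self, this]
      exact T_gen _ _
    · obtain ⟨k, rfl⟩ := Fin.exists_succAbove_eq (Ne.symm hij)
      simp only [removeNth_update_of]
      have h2 : ∀ y, update z (i.succAbove k) y i = z i := by
        intro y; rw [update_of_ne (Fin.succAbove_ne i k).symm]
      simp only [h2]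
      exact T_left _ (ih _ _ _)

/-- exchange through an operator, factor on the left -/
theorem exL_T {n : ℕ} (hH : H I (n + 2)) (c : ℕ → A) {φ : A → A} (hφ : φ ∈ T A)
    {y : A} (hy : y ∈ I) {v : Fin (n + 1) → A} (hv : ∀ i, v i ∈ I) :
    φ y * al (n + 1) c v = ∑ l : Fin (n + 1), φ (v l) * al (n + 1) c (update v l y) := by
  induction hφ using AddSubgroup.closure_induction with
  | mem φ h =>
    obtain ⟨p, q, rfl⟩ := h
    have := exL hH c q hy hv
    have h2 := congrArg (fun t => p * t) this
    simp only [Finset.mul_sum, ← mul_assoc] at h2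
    exact h2
  | zero => simp
  | add φ ψ _ _ h1 h2 =>
    simp only [Pi.add_apply, add_mul, h1, h2, Finset.sum_add_distrib]
  | neg φ _ h1 => simp only [Pi.neg_apply, neg_mul, h1, Finset.sum_neg_distrib]

/-- exchange through an operator, factor on the right -/
theorem exR_T {n : ℕ} (hH : H I (n + 2)) (c : ℕ → A) {φ : A → A} (hφ : φ ∈ T A)
    {y : A} (hy : y ∈ I) {v : Fin (n + 1) → A} (hv : ∀ i, v i ∈ I) :
    al (n + 1) c v * φ y = ∑ l : Fin (n + 1), al (n + 1) c (update v l y) * φ (v l) := by
  induction hφ using AddSubgroup.closure_induction with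
  | mem φ h =>
    obtain ⟨p, q, rfl⟩ := h
    have := exR hH c p hy hv
    have h2 := congrArg (fun t => t * q) this
    simp only [Finset.sum_mul] at h2
    simp only [← mul_assoc]
    exact h2
  | zero => simp
  | add φ ψ _ _ h1 h2 =>
    simp only [Pi.add_apply, mul_add, h1, h2, Finset.sum_add_distrib]
  | neg φ _ h1 => simp only [Pi.neg_apply, mul_neg, h1, Finset.sum_neg_distrib]

/-- the trace of an operator on the left factor -/
def Dz {n : ℕ} (c d : ℕ → A) (z x : Fin (n + 1) → A) (φ : A → A) : A :=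
  ∑ j : Fin (n + 1), al (n + 1) c (update z j (φ (z j))) * al (n + 1) d x

/-- the trace of an operator on the right factor -/
def Dx {n : ℕ} (c d : ℕ → A) (z x : Fin (n + 1) → A) (φ : A → A) : A :=
  ∑ i : Fin (n + 1), al (n + 1) c z * al (n + 1) d (update x i (φ (x i)))

theorem Dx_eq_Dz (hI : Idl I) {n : ℕ} (hH : H I (n + 2)) (c d : ℕ → A)
    {z x : Fin (n + 1) → A} (hz : ∀ i, z i ∈ I) (hx : ∀ i, x i ∈ I)
    {φ ψ : A → A} (hφ : φ ∈ T A) (hψ : ψ ∈ T A) :
    Dx c d z x (fun y => φ (ψ y)) = Dz c d z x (fun y => ψ (φ y)) := by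
  unfold Dx Dz
  have h1 : ∀ i : Fin (n + 1), al (n + 1) c z * al (n + 1) d (update x i (φ (ψ (x i)))) =
      ∑ j : Fin (n + 1), al (n + 1) c (update z j (ψ (x i))) *
        al (n + 1) d (update x i (φ (z j))) := by
    intro i
    exact exR_T hH c (φ := fun y => al (n + 1) d (update x i (φ y)))
      (T_comp (al_T (n + 1) d x i) hφ) (T_mem hI hψ (hx i)) hz
  have h2 : ∀ j : Fin (n + 1), al (n + 1) c (update z j (ψ (φ (z j)))) * al (n + 1) d x =
      ∑ i : Fin (n + 1), al (n + 1) c (update z j (ψ (x i))) *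
        al (n + 1) d (update x i (φ (z j))) := by
    intro j
    exact exL_T hH d (φ := fun y => al (n + 1) c (update z j (ψ y)))
      (T_comp (al_T (n + 1) c z j) hψ) (T_mem hI hφ (hz j)) hx
  simp only [h1, h2]
  exact Finset.sum_comm

theorem Dz_comm (hI : Idl I) {n : ℕ} (hH : H I (n + 2)) (c d : ℕ → A)
    {z x : Fin (n + 1) → A} (hz : ∀ i, z i ∈ I) (hx : ∀ i, x i ∈ I)
    {φ ψ : A → A} (hφ : φ ∈ T A) (hψ : ψ ∈ T A) :
    Dz c d z x (fun y => φ (ψ y)) = Dz c d z x (fun y => ψ (φ y)) := by
  rw [← Dx_eq_Dz hI hH c d hz hx hφ hψ]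
  have := Dx_eq_Dz hI hH c d hz hx (T_comp hφ hψ) T_id
  exact this.symm

theorem Dz_add {n : ℕ} (c d : ℕ → A) (z x : Fin (n + 1) → A) (φ ψ : A → A) :
    Dz c d z x (fun y => φ y + ψ y) = Dz c d z x φ + Dz c d z x ψ := by
  unfold Dz
  rw [← Finset.sum_add_distrib]
  refine Finset.sum_congr rfl fun j _ => ?_
  rw [AlternatingMap.map_update_add, add_mul]

theorem Dz_neg {n : ℕ} (c d : ℕ → A) (z x : Fin (n + 1) → A) (φ : A → A) :
    Dz c d z x (fun y => - φ y) = - Dz c d z x φ := by
  have h := Dz_add c d z x φ (fun y => - φ y)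
  have h0 : Dz c d z x (fun y => φ y + - φ y) = 0 := by
    unfold Dz
    refine Finset.sum_eq_zero fun j _ => ?_
    simp only [add_neg_cancel]
    rw [AlternatingMap.map_update_zero, zero_mul]
  rw [h0] at h
  exact (neg_eq_of_add_eq_zero_right h.symm).symm

theorem Dz_zero' {n : ℕ} (c d : ℕ → A) (z x : Fin (n + 1) → A) :
    Dz c d z x (fun _ => 0) = 0 := by
  unfold Dz
  refine Finset.sum_eq_zero fun j _ => ?_
  rw [AlternatingMap.map_update_zero, zero_mul]

/-- If `I = [I, I]` then the trace of every two sided multiplication by elements of `I`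
vanishes. -/
theorem Dz_left (hI : Idl I) {n : ℕ} (hH : H I (n + 2)) (c d : ℕ → A)
    {z x : Fin (n + 1) → A} (hz : ∀ i, z i ∈ I) (hx : ∀ i, x i ∈ I) (q : A)
    {p : A} (hp : p ∈ AddSubgroup.closure {z : A | ∃ a ∈ I, ∃ b ∈ I, z = a * b - b * a}) :
    Dz c d z x (fun y => p * y * q) = 0 := by
  induction hp using AddSubgroup.closure_induction with
  | mem p h =>
    obtain ⟨s, _, t, _, rfl⟩ := h
    have e := Dz_comm hI hH c d hz hx (T_gen s 1) (T_gen t q)
    have e2 : (fun y => (s * t - t * s) * y * q) =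
        (fun y => (s * (t * y * q) * 1) + - (t * (s * y * 1) * q)) := by
      funext y; noncomm_ring
    rw [e2, Dz_add c d z x (fun y => (s * (t * y * q) * 1))
      (fun y => - (t * (s * y * 1) * q)), Dz_neg c d z x (fun y => (t * (s * y * 1) * q)),
      e, add_neg_cancel]
  | zero =>
    simp only [zero_mul]
    exact Dz_zero' c d z x
  | add p p' _ _ h1 h2 =>
    have e2 : (fun y => (p + p') * y * q) = (fun y => p * y * q + p' * y * q) := by
      funext y; noncomm_ring
    rw [e2, Dz_add c d z x (fun y => p * y * q) (fun y => p' * y * q), h1, h2, add_zero]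
  | neg p _ h1 =>
    have e2 : (fun y => (-p) * y * q) = (fun y => - (p * y * q)) := by
      funext y; noncomm_ring
    rw [e2, Dz_neg c d z x (fun y => p * y * q), h1, neg_zero]

theorem Dz_right (hI : Idl I) {n : ℕ} (hH : H I (n + 2)) (c d : ℕ → A)
    {z x : Fin (n + 1) → A} (hz : ∀ i, z i ∈ I) (hx : ∀ i, x i ∈ I) (p : A)
    {q : A} (hq : q ∈ AddSubgroup.closure {z : A | ∃ a ∈ I, ∃ b ∈ I, z = a * b - b * a}) :
    Dz c d z x (fun y => p * y * q) = 0 := by
  induction hq using AddSubgroup.closure_induction with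
  | mem q h =>
    obtain ⟨s, _, t, _, rfl⟩ := h
    have e := Dz_comm hI hH c d hz hx (T_gen 1 t) (T_gen p s)
    have e2 : (fun y => p * y * (s * t - t * s)) =
        (fun y => (1 * (p * y * s) * t) + - (p * (1 * y * t) * s)) := by
      funext y; noncomm_ring
    rw [e2, Dz_add c d z x (fun y => (1 * (p * y * s) * t))
      (fun y => - (p * (1 * y * t) * s)), Dz_neg c d z x (fun y => (p * (1 * y * t) * s)),
      e, add_neg_cancel]
  | zero =>
    simp only [mul_zero]
    exact Dz_zero' c d z x
  | add q q' _ _ h1 h2 =>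
    have e2 : (fun y => p * y * (q + q')) = (fun y => p * y * q + p * y * q') := by
      funext y; noncomm_ring
    rw [e2, Dz_add c d z x (fun y => p * y * q) (fun y => p * y * q'), h1, h2, add_zero]
  | neg q _ h1 =>
    have e2 : (fun y => p * y * (-q)) = (fun y => - (p * y * q)) := by
      funext y; noncomm_ring
    rw [e2, Dz_neg c d z x (fun y => p * y * q), h1, neg_zero]

theorem Dz_zero (hI : Idl I) (hP : Perf I) {n : ℕ} (hH : H I (n + 2)) (c d : ℕ → A)
    {z x : Fin (n + 1) → A} (hz : ∀ i, z i ∈ I) (hx : ∀ i, x i ∈ I)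
    {φ : A → A} (hφ : φ ∈ TI I) : Dz c d z x φ = 0 := by
  induction hφ using AddSubgroup.closure_induction with
  | mem φ h =>
    obtain ⟨p, q, hpq, rfl⟩ := h
    rcases hpq with hp | hq
    · exact Dz_left hI hH c d hz hx q (hP p hp)
    · exact Dz_right hI hH c d hz hx p (hP q hq)
  | zero => exact Dz_zero' c d z x
  | add φ ψ _ _ h1 h2 =>
    have := Dz_add c d z x φ ψ
    rw [h1, h2, add_zero] at this
    exact this
  | neg φ _ h1 =>
    have := Dz_neg c d z x φ
    rw [h1, neg_zero] at this
    exact this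

end

end Pool.Agent.Run7.h775.LV
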