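import Pool.Agent.Run7.h775.LV.Main

/-!
From rings without unit to ideals, and the Capelli identities in algebras which are
finitely generated modules.
-/

namespace Pool.Agent.Run7.h775.LV

open Finset Function Equiv

universe u v w

theorem mo_eq {A : Type u} [Ring A] (n : ℕ) (c : ℕ → A) (x : Fin n → A) :
    mo n c x = c 0 * (List.ofFn fun i : Fin n => x i * c ((i : ℕ) + 1)).prod := by
  induction n generalizing c with
  | zero => simp [mo]
  | succ n ih =>
    rw [mo, ih, List.ofFn_succ, List.prod_cons]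
    simp only [Fin.val_zero, Fin.val_succ, mul_assoc]

section

variable {R : Type u} [NonUnitalRing R]

/-- the ideal `R` of `ℤ ⊕ R` -/
def inI (R : Type u) [NonUnitalRing R] :
    @AddSubgroup (Unitization ℤ R) Ring.toAddGroupWithOne.toAddGroup where
  carrier := {x | x.fst = 0}
  zero_mem' := rfl
  add_mem' := by
    intro a b ha hb
    have ha' : a.fst = 0 := ha
    have hb' : b.fst = 0 := hb
    change a.fst + b.fst = 0
    rw [ha', hb', add_zero]
  neg_mem' := by
    intro a ha
    have ha' : a.fst = 0 := ha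
    change - a.fst = 0
    rw [ha', neg_zero]

theorem mem_inI (x : Unitization ℤ R) : x ∈ inI R ↔ x.fst = 0 := Iff.rfl

theorem inr_mem (x : R) : (x : Unitization ℤ R) ∈ inI R := by
  rw [mem_inI]; simp

theorem exists_inr {x : Unitization ℤ R} (h : x ∈ inI R) : ∃ y : R, (y : Unitization ℤ R) = x := by
  rw [mem_inI] at h
  refine ⟨x.snd, ?_⟩
  apply Unitization.ext
  · simpa using h.symm
  · simp

theorem inI_idl : Idl (inI R) := by
  constructor
  · intro a x hx
    rw [mem_inI] at *
    simp [hx]
  · intro a x hx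
    rw [mem_inI] at *
    simp [hx]

theorem inI_perf
    (h : AddSubgroup.closure {z : R | ∃ a b : R, z = a * b - b * a} = ⊤) : Perf (inI R) := by
  intro x' hx'
  obtain ⟨x, rfl⟩ := exists_inr hx'
  have hx : x ∈ AddSubgroup.closure {z : R | ∃ a b : R, z = a * b - b * a} := by rw [h]; trivial
  clear hx'
  induction hx using AddSubgroup.closure_induction with
  | mem z hz =>
    obtain ⟨a, b, rfl⟩ := hz
    refine AddSubgroup.subset_closure ⟨a, inr_mem a, b, inr_mem b, ?_⟩
    rw [Unitization.inr_sub, Unitization.inr_mul, Unitization.inr_mul]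
  | zero => rw [Unitization.inr_zero]; exact AddSubgroup.zero_mem _
  | add y z _ _ h1 h2 => rw [Unitization.inr_add]; exact AddSubgroup.add_mem _ h1 h2
  | neg y _ h1 => rw [Unitization.inr_neg]; exact AddSubgroup.neg_mem _ h1

theorem inI_H {m : ℕ} (h : ∀ (c : ℕ → Unitization ℤ R) (x : Fin m → R),
    ∑ σ : Perm (Fin m), (Perm.sign σ : ℤ) • (c 0 *
      (List.ofFn fun i : Fin m => ((x (σ i) : R) : Unitization ℤ R) * c ((i : ℕ) + 1)).prod) = 0) :
    H (inI R) m := by
  intro c x hx
  choose y hy using fun i => exists_inr (hx i)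
  have e : x = fun i => (y i : Unitization ℤ R) := funext fun i => (hy i).symm
  rw [e, al_eq_lei, lei]
  simp only [mo_eq]
  exact h c y

theorem H_succ {A : Type u} [Ring A] {I : AddSubgroup A} {m : ℕ} (h : H I m) : H I (m + 1) := by
  intro c x hx
  rw [al_succ]
  refine Finset.sum_eq_zero fun i _ => ?_
  rw [h _ (i.removeNth x) (fun j => hx _), mul_zero, smul_zero]

theorem zero_of_capelli (m : ℕ) (h : ∀ (c : ℕ → Unitization ℤ R) (x : Fin m → R),
    ∑ σ : Perm (Fin m), (Perm.sign σ : ℤ) • (c 0 *
      (List.ofFn fun i : Fin m => ((x (σ i) : R) : Unitization ℤ R) * c ((i : ℕ) + 1)).prod) = 0)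
    (hP : AddSubgroup.closure {z : R | ∃ a b : R, z = a * b - b * a} = ⊤) (x : R) : x = 0 := by
  have h1 := main m (Unitization ℤ R) (inI R) inI_idl (inI_perf hP) (H_succ (inI_H h)) x
    (inr_mem x)
  exact Unitization.inr_injective h1

end

section

variable {C : Type v} {B : Type w} [CommRing C] [Ring B] [Algebra C B]

/-- the monomial as a multilinear map -/
def moM (n : ℕ) (c : ℕ → B) : MultilinearMap C (fun _ : Fin n => B) B :=
  (LinearMap.mulLeft C (c 0)).compMultilinearMap
    ((MultilinearMap.mkPiAlgebraFin C n B).compLinearMap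
      (fun i => LinearMap.mulRight C (c ((i : ℕ) + 1))))

theorem moM_apply (n : ℕ) (c : ℕ → B) (x : Fin n → B) :
    moM (C := C) n c x = c 0 * (List.ofFn fun i : Fin n => x i * c ((i : ℕ) + 1)).prod := by
  simp [moM]

theorem alt_zero [Module.Finite C B] : ∃ N : ℕ, ∀ f : B [⋀^Fin (N + 1)]→ₗ[C] B, f = 0 := by
  obtain ⟨N, p, hp⟩ := Module.Finite.exists_fin' C B
  refine ⟨N, fun f => ?_⟩
  have h0 : f.compLinearMap p = 0 := by
    refine Module.Basis.ext_alternating (Pi.basisFun C (Fin N)) fun v hv => ?_
    have := Fintype.card_le_of_injective v hv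
    simp at this
  ext x
  choose y hy using fun i => hp (x i)
  have := congrArg (fun g => g y) h0
  simp only [AlternatingMap.compLinearMap_apply, AlternatingMap.zero_apply] at this
  have e : x = fun i => p (y i) := funext fun i => (hy i).symm
  rw [e]
  simpa using this

theorem capelli_of_finite [Module.Finite C B] :
    ∃ N : ℕ, ∀ (c : ℕ → B) (x : Fin (N + 1) → B),
    ∑ σ : Perm (Fin (N + 1)), (Perm.sign σ : ℤ) • (c 0 *
      (List.ofFn fun i : Fin (N + 1) => x (σ i) * c ((i : ℕ) + 1)).prod) = 0 := by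
  obtain ⟨N, hN⟩ := alt_zero (C := C) (B := B)
  refine ⟨N, fun c x => ?_⟩
  have := congrArg (fun g => g x) (hN (MultilinearMap.alternatization (moM (C := C) (N + 1) c)))
  simp only [MultilinearMap.alternatization_apply, AlternatingMap.zero_apply,
    MultilinearMap.domDomCongr_apply, moM_apply] at this
  simpa [Units.smul_def] using this

/-- subrings of algebras which are finitely generated modules satisfy Capelli identities -/
theorem capelli_sub [Module.Finite C B] (R : NonUnitalSubring B) :
    ∃ N : ℕ, ∀ (c : ℕ → Unitization ℤ R) (x : Fin (N + 1) → R),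
      ∑ σ : Perm (Fin (N + 1)), (Perm.sign σ : ℤ) • (c 0 *
      (List.ofFn fun i : Fin (N + 1) =>
        ((x (σ i) : R) : Unitization ℤ R) * c ((i : ℕ) + 1)).prod) = 0 := by
  obtain ⟨N, hN⟩ := capelli_of_finite (C := C) (B := B)
  let φ : Unitization ℤ R →ₐ[ℤ] B := Unitization.lift
    ({ toFun := fun x => (x : B), map_smul' := fun n x => by simp, map_zero' := rfl,
       map_add' := fun _ _ => rfl, map_mul' := fun _ _ => rfl } : R →ₙₐ[ℤ] B)
  have hφ : ∀ x : R, φ (x : Unitization ℤ R) = (x : B) := by
    intro x; simp [φ]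
  refine ⟨N, fun c x => ?_⟩
  set s := ∑ σ : Perm (Fin (N + 1)), (Perm.sign σ : ℤ) • (c 0 *
      (List.ofFn fun i : Fin (N + 1) =>
        ((x (σ i) : R) : Unitization ℤ R) * c ((i : ℕ) + 1)).prod) with hs
  have hs1 : s ∈ inI R := by
    refine AddSubgroup.sum_mem _ fun σ _ => AddSubgroup.zsmul_mem _ ?_ _
    refine inI_idl.left _ _ ?_
    rw [List.ofFn_succ, List.prod_cons]
    exact inI_idl.right _ _ (inI_idl.right _ _ (inr_mem _))
  have hs2 : φ s = 0 := by
    rw [hs, map_sum]
    have := hN (fun i => φ (c i)) (fun i => (x i : B))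
    rw [← this]
    refine Finset.sum_congr rfl fun σ _ => ?_
    rw [map_zsmul, map_mul]
    have e1 : φ (List.ofFn fun i : Fin (N + 1) =>
        ((x (σ i) : R) : Unitization ℤ R) * c ((i : ℕ) + 1)).prod =
        (List.ofFn fun i : Fin (N + 1) => (x (σ i) : B) * φ (c ((i : ℕ) + 1))).prod := by
      have e2 : ∀ l : List (Unitization ℤ R), φ l.prod = (l.map φ).prod := by
        intro l
        induction l with
        | nil =>
          rw [List.prod_nil, List.map_nil, List.prod_nil]
          exact φ.map_one'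
        | cons a l ih => rw [List.prod_cons, List.map_cons, List.prod_cons, ← ih, map_mul]
      rw [e2, List.map_ofFn]
      congr 2
      funext i
      simp [hφ]
    rw [e1]
  obtain ⟨y, hy⟩ := exists_inr hs1
  have hy' : (y : Unitization ℤ R) = s := hy
  rw [← hy', hφ] at hs2
  have : y = 0 := Subtype.ext hs2
  rw [← hy', this, Unitization.inr_zero]

end

/-- Capelli identities pass to homomorphic images -/
theorem capelli_image {S : Type u} {R : Type v} [NonUnitalRing S] [NonUnitalRing R]
    (f : S →ₙ+* R) (hf : Surjective f) {m : ℕ}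
    (h : ∀ (c : ℕ → Unitization ℤ S) (x : Fin m → S),
      ∑ σ : Perm (Fin m), (Perm.sign σ : ℤ) • (c 0 *
      (List.ofFn fun i : Fin m =>
        ((x (σ i) : S) : Unitization ℤ S) * c ((i : ℕ) + 1)).prod) = 0)
    (c : ℕ → Unitization ℤ R) (x : Fin m → R) :
      ∑ σ : Perm (Fin m), (Perm.sign σ : ℤ) • (c 0 *
      (List.ofFn fun i : Fin m =>
        ((x (σ i) : R) : Unitization ℤ R) * c ((i : ℕ) + 1)).prod) = 0 := by
  let φ : Unitization ℤ S →ₐ[ℤ] Unitization ℤ R := Unitization.lift
    ((Unitization.inrNonUnitalAlgHom ℤ R).comp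
    ({ toFun := f, map_smul' := fun n x => by simp, map_zero' := map_zero f,
       map_add' := map_add f, map_mul' := map_mul f } : S →ₙₐ[ℤ] R))
  have hφ : ∀ x : S, φ (x : Unitization ℤ S) = (f x : Unitization ℤ R) := by
    intro x; simp [φ]
  have hsurj : ∀ y : Unitization ℤ R, ∃ z, φ z = y := by
    intro y
    obtain ⟨b, hb⟩ := hf y.snd
    refine ⟨((y.fst : ℤ) : Unitization ℤ S) + (b : Unitization ℤ S), ?_⟩
    have h1 : φ ((y.fst : ℤ) : Unitization ℤ S) = ((y.fst : ℤ) : Unitization ℤ R) := by
      exact map_intCast φ.toRingHom y.fst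
    have h2 : ((y.fst : ℤ) : Unitization ℤ R) = Unitization.inl y.fst :=
      (map_intCast (Unitization.inlRingHom ℤ R) y.fst).symm
    rw [map_add, hφ, hb, h1, h2]
    exact Unitization.inl_fst_add_inr_snd_eq y
  choose c' hc' using fun i => hsurj (c i)
  choose x' hx' using fun i => hf (x i)
  have h0 := congrArg φ (h c' x')
  rw [map_sum, map_zero] at h0
  rw [← h0]
  refine Finset.sum_congr rfl fun σ _ => ?_
  rw [map_zsmul, map_mul, hc']
  have e2 : ∀ l : List (Unitization ℤ S), φ l.prod = (l.map φ).prod := by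
    intro l
    induction l with
    | nil =>
      rw [List.prod_nil, List.map_nil, List.prod_nil]
      exact φ.map_one'
    | cons a l ih => rw [List.prod_cons, List.map_cons, List.prod_cons, ← ih, map_mul]
  rw [e2, List.map_ofFn]
  congr 3
  congr 1
  funext i
  simp [hφ, hc', hx']

end Pool.Agent.Run7.h775.LV
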